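import Mathlib
import Pool.Agent.Y384.UC.Few
import Pool.Agent.Y608.UC.TopsK

set_option autoImplicit false

/-!
# Union-closed families without an element in more than half of the members

Reduction to separating families, and the equality case of the theorems `Y384.UC.Few` and
`Y608.UC.TopsK`.
-/

namespace Pool.Agent.Y205.TF

open Finset

variable {α : Type*} [DecidableEq α]

/-- Representatives of the classes of elements lying in the same members. -/
theorem exists_reps (A : Finset (Finset α)) : ∃ (R : Finset α) (rep : α → α), R ⊆ A.sup id ∧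
    (∀ x ∈ A.sup id, rep x ∈ R) ∧ (∀ x ∈ A.sup id, ∀ S ∈ A, rep x ∈ S ↔ x ∈ S) ∧
    ∀ x ∈ R, ∀ y ∈ R, (∀ S ∈ A, x ∈ S ↔ y ∈ S) → x = y := by
  classical
  rcases (A.sup id).eq_empty_or_nonempty with h0 | ⟨x0, _⟩
  · refine ⟨∅, id, empty_subset _, ?_, ?_, ?_⟩
    · intro x hx; rw [h0] at hx; exact absurd hx (notMem_empty x)
    · intro x hx; rw [h0] at hx; exact absurd hx (notMem_empty x)
    · intro x hx; exact absurd hx (notMem_empty x)
  haveI : Nonempty α := ⟨x0⟩
  obtain ⟨cl, hcl⟩ : ∃ cl : α → Finset (Finset α), cl = fun x => A.filter (fun S => x ∈ S) :=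
    ⟨_, rfl⟩
  obtain ⟨rep, hrep⟩ : ∃ rep : α → α,
      rep = fun x => Function.invFunOn cl (↑(A.sup id) : Set α) (cl x) := ⟨_, rfl⟩
  have h1 : ∀ x ∈ A.sup id, rep x ∈ A.sup id ∧ cl (rep x) = cl x := by
    intro x hx
    have hex : ∃ a ∈ (↑(A.sup id) : Set α), cl a = cl x := ⟨x, by exact_mod_cast hx, rfl⟩
    rw [hrep]
    exact ⟨by exact_mod_cast Function.invFunOn_mem hex, Function.invFunOn_eq hex⟩
  have h2 : ∀ x y, (∀ S ∈ A, x ∈ S ↔ y ∈ S) → cl x = cl y := by
    intro x y h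
    rw [hcl]
    exact filter_congr h
  have h3 : ∀ x y, cl x = cl y → ∀ S ∈ A, x ∈ S ↔ y ∈ S := by
    intro x y h S hS
    rw [hcl] at h
    have h4 : S ∈ A.filter (fun S => x ∈ S) ↔ S ∈ A.filter (fun S => y ∈ S) := by
      simp only at h
      rw [h]
    simpa [hS] using h4
  refine ⟨(A.sup id).image rep, rep, ?_, ?_, ?_, ?_⟩
  · intro r hr
    obtain ⟨x, hx, rfl⟩ := mem_image.1 hr
    exact (h1 x hx).1
  · exact fun x hx => mem_image_of_mem _ hx
  · exact fun x hx S hS => h3 _ _ (h1 x hx).2 S hS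
  · intro x hx y hy h
    obtain ⟨a, ha, rfl⟩ := mem_image.1 hx
    obtain ⟨b, hb, rfl⟩ := mem_image.1 hy
    have h4 := h2 _ _ h
    rw [(h1 a ha).2, (h1 b hb).2] at h4
    rw [hrep]
    simp only
    rw [h4]

/-- `T` dominates the elements of the members. -/
def Dom (A : Finset (Finset α)) (T : Finset α) : Prop :=
  ∀ X ∈ A, ∀ x ∈ X, ∃ t ∈ T, ∀ Y ∈ A, x ∈ Y → t ∈ Y

/-- **minimal dominating sets** -/
theorem tight_min (A : Finset (Finset α)) (hne : A.Nonempty) (hU : ∀ X ∈ A, ∀ Y ∈ A, X ∪ Y ∈ A)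
    (hle : ∀ x : α, 2 * (A.filter (fun S => x ∈ S)).card ≤ A.card) (T : Finset α)
    (hT : Dom A T) (hmin : ∀ t ∈ T, ¬ Dom A (T.erase t))
    (hcl : ∀ S ∈ A, (S ∩ T).card ≤ 2 ∨ T.card ≤ 2 * (S ∩ T).card) : A.card = 2 ^ T.card := by
  classical
  obtain ⟨R, rep, hRG, hrepR, hrepm, hsepR⟩ := exists_reps A
  have hGtop : ∀ S ∈ A, S ⊆ A.sup id := fun S hS => Finset.le_sup (f := id) hS
  have hmin' : ∀ t ∈ T, ∃ X ∈ A, ∃ x ∈ X, ∀ s ∈ T, (∀ Y ∈ A, x ∈ Y → s ∈ Y) → s = t := by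
    intro t ht
    have h := hmin t ht
    unfold Dom at h
    push Not at h
    obtain ⟨X, hX, x, hx, h⟩ := h
    refine ⟨X, hX, x, hx, fun s hs hd => ?_⟩
    by_contra hst
    obtain ⟨Y, hY, h1, h2⟩ := h s (mem_erase.2 ⟨hst, hs⟩)
    exact h2 (hd Y hY h1)
  have hsub : ∀ S ∈ A, ∀ S' ∈ A, S ∩ R ⊆ S' ∩ R → S ⊆ S' := by
    intro S hS S' hS' h x hx
    have hxG := hGtop S hS hx
    have h1 : rep x ∈ S ∩ R := mem_inter.mpr ⟨(hrepm x hxG S hS).mpr hx, hrepR x hxG⟩
    exact (hrepm x hxG S' hS').mp (mem_inter.mp (h h1)).1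
  have hinj : Set.InjOn (fun S => S ∩ R) (A : Set (Finset α)) := by
    intro S hS S' hS' h
    exact Subset.antisymm (hsub S hS S' hS' (le_of_eq h)) (hsub S' hS' S hS (le_of_eq h.symm))
  obtain ⟨A', hA'⟩ : ∃ A', A' = A.image (fun S => S ∩ R) := ⟨_, rfl⟩
  have hcard : A'.card = A.card := by rw [hA']; exact card_image_of_injOn hinj
  have hmem : ∀ S', S' ∈ A' ↔ ∃ S ∈ A, S ∩ R = S' := by
    intro S'
    rw [hA', mem_image]
  have hU' : ∀ X ∈ A', ∀ Y ∈ A', X ∪ Y ∈ A' := by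
    intro X hX Y hY
    rw [hmem] at hX hY ⊢
    obtain ⟨S, hS, rfl⟩ := hX
    obtain ⟨S', hS', rfl⟩ := hY
    exact ⟨S ∪ S', hU S hS S' hS', union_inter_distrib_right _ _ _⟩
  have hsup : A'.sup id = R := by
    apply Subset.antisymm
    · refine Finset.sup_le ?_
      intro S' hS'
      rw [hmem] at hS'
      obtain ⟨S, hS, rfl⟩ := hS'
      exact inter_subset_right
    · intro r hr
      have h1 := hRG hr
      rw [mem_sup] at h1
      obtain ⟨S, hS, hrS⟩ := h1
      rw [mem_sup]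
      exact ⟨S ∩ R, (hmem _).mpr ⟨S, hS, rfl⟩, mem_inter.mpr ⟨hrS, hr⟩⟩
  have hfreq' : ∀ r ∈ R, (A'.filter (fun S => r ∈ S)).card = (A.filter (fun S => r ∈ S)).card := by
    intro r hr
    have h1 : A'.filter (fun S => r ∈ S) = (A.filter (fun S => r ∈ S)).image (fun S => S ∩ R) := by
      ext S'
      rw [mem_filter, hmem, mem_image]
      constructor
      · rintro ⟨⟨S, hS, rfl⟩, hrS⟩
        exact ⟨S, mem_filter.mpr ⟨hS, (mem_inter.mp hrS).1⟩, rfl⟩
      · rintro ⟨S, hS, rfl⟩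
        rw [mem_filter] at hS
        exact ⟨⟨S, hS.1, rfl⟩, mem_inter.mpr ⟨hS.2, hr⟩⟩
    rw [h1]
    exact card_image_of_injOn (hinj.mono (by exact_mod_cast filter_subset _ _))
  have hsep : Pool.Agent.Y384.UC.Few.Sep A' := by
    intro x hx y hy hne
    rw [hsup] at hx hy
    by_contra hcon
    push Not at hcon
    apply hne
    apply hsepR x hx y hy
    intro S hS
    have h2 := hcon (S ∩ R) ((hmem _).mpr ⟨S, hS, rfl⟩)
    simp only [mem_inter, hx, hy, and_true] at h2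
    tauto
  -- the elements of `T`
  have hTG : ∀ t ∈ T, t ∈ A.sup id := by
    intro t ht
    obtain ⟨X, hX, x, hx, h⟩ := hmin' t ht
    obtain ⟨s, hs, hd⟩ := hT X hX x hx
    rw [← h s hs hd]
    exact hGtop X hX (hd X hX hx)
  have hinjT : Set.InjOn rep (T : Set α) := by
    intro t ht t' ht' h
    have ht0 : t ∈ T := ht
    have ht0' : t' ∈ T := ht'
    obtain ⟨X, hX, x, hx, h1⟩ := hmin' t ht0
    obtain ⟨s, hs, hd⟩ := hT X hX x hx
    have hst := h1 s hs hd
    subst hst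
    symm
    apply h1 t' ht0'
    intro Y hY hxY
    have h2 := hd Y hY hxY
    rw [← hrepm _ (hTG _ ht0) Y hY, h, hrepm _ (hTG _ ht0') Y hY] at h2
    exact h2
  have hund : Pool.Agent.Y384.UC.Few.und A' = T.image rep := by
    ext u
    unfold Pool.Agent.Y384.UC.Few.und
    rw [mem_filter, mem_image, hsup]
    constructor
    · rintro ⟨hu, h⟩
      have huG := hRG hu
      rw [mem_sup] at huG
      obtain ⟨X, hX, hx⟩ := huG
      obtain ⟨t, ht, hd⟩ := hT X hX u hx
      refine ⟨t, ht, ?_⟩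
      apply h (rep t) (hrepR t (hTG t ht))
      intro S' hS' huS'
      rw [hmem] at hS'
      obtain ⟨S, hS, rfl⟩ := hS'
      rw [mem_inter] at huS' ⊢
      exact ⟨(hrepm t (hTG t ht) S hS).2 (hd S hS huS'.1), hrepR t (hTG t ht)⟩
    · rintro ⟨t, ht, rfl⟩
      refine ⟨hrepR t (hTG t ht), fun y hy hdy => ?_⟩
      obtain ⟨X, hX, x, hx, h1⟩ := hmin' t ht
      obtain ⟨s, hs, hd⟩ := hT X hX x hx
      have hst := h1 s hs hd
      subst hst
      -- y dominates s in A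
      have hys : ∀ S ∈ A, s ∈ S → y ∈ S := by
        intro S hS hsS
        have h2 := hdy (S ∩ R) ((hmem _).2 ⟨S, hS, rfl⟩)
          (mem_inter.2 ⟨(hrepm s (hTG s ht) S hS).2 hsS, hrepR s (hTG s ht)⟩)
        exact (mem_inter.1 h2).1
      have hyG := hRG hy
      rw [mem_sup] at hyG
      obtain ⟨Z, hZ, hyZ⟩ := hyG
      obtain ⟨s', hs', hd'⟩ := hT Z hZ y hyZ
      have h3 : s' = s := h1 s' hs' fun Y hY hxY => hd' Y hY (hys Y hY (hd Y hY hxY))
      subst h3
      apply hsepR y hy _ (hrepR s' (hTG s' ht))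
      intro S hS
      rw [hrepm s' (hTG s' ht) S hS]
      exact ⟨hd' S hS, hys S hS⟩
  have hundcard : (Pool.Agent.Y384.UC.Few.und A').card = T.card := by
    rw [hund]; exact card_image_of_injOn hinjT
  have hint : ∀ S ∈ A, ((S ∩ R) ∩ Pool.Agent.Y384.UC.Few.und A').card = (S ∩ T).card := by
    intro S hS
    rw [hund]
    have h1 : (S ∩ R) ∩ T.image rep = (S ∩ T).image rep := by
      ext u
      rw [mem_inter, mem_inter, mem_image, mem_image]
      constructor
      · rintro ⟨⟨h1, h2⟩, t, ht, rfl⟩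
        exact ⟨t, mem_inter.2 ⟨(hrepm t (hTG t ht) S hS).1 h1, ht⟩, rfl⟩
      · rintro ⟨t, ht, rfl⟩
        rw [mem_inter] at ht
        exact ⟨⟨(hrepm t (hTG t ht.2) S hS).2 ht.1, hrepR t (hTG t ht.2)⟩, t, ht.2, rfl⟩
    rw [h1]
    exact card_image_of_injOn (hinjT.mono (by exact_mod_cast inter_subset_right))
  have hpow : A' = (A'.sup id).powerset := by
    by_contra hpow
    obtain ⟨x, hx, hlt⟩ := Pool.Agent.Y384.UC.Few.main A' (by rw [hA']; exact hne.image _) hU' hsep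
      hpow (by
        intro S' hS'
        rw [hmem] at hS'
        obtain ⟨S, hS, rfl⟩ := hS'
        rw [hint S hS, hundcard]
        exact hcl S hS)
    rw [hsup] at hx
    unfold Pool.Agent.Y384.UC.Few.fr at hlt
    rw [hfreq' x hx, hcard] at hlt
    exact absurd (hle x) (by omega)
  have hundR : Pool.Agent.Y384.UC.Few.und A' = R := by
    unfold Pool.Agent.Y384.UC.Few.und
    rw [hsup]
    apply filter_true_of_mem
    intro t ht y hy h
    have h1 : ({t} : Finset α) ∈ A' := by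
      rw [hpow, mem_powerset, hsup, singleton_subset_iff]; exact ht
    exact mem_singleton.1 (h {t} h1 (mem_singleton_self t))
  rw [← hundcard, hundR, ← hcard, hpow, card_powerset, hsup]

theorem exists_min {A : Finset (Finset α)} {T : Finset α} (hT : Dom A T) :
    ∃ T₀ ⊆ T, Dom A T₀ ∧ ∀ t ∈ T₀, ¬ Dom A (T₀.erase t) := by
  classical
  have hfin : (T.powerset.filter fun S => Dom A S).Nonempty :=
    ⟨T, mem_filter.2 ⟨mem_powerset_self T, hT⟩⟩
  obtain ⟨T₀, h0, hmin⟩ := exists_min_image _ (fun S : Finset α => S.card) hfin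
  rw [mem_filter, mem_powerset] at h0
  refine ⟨T₀, h0.1, h0.2, fun t ht hd => ?_⟩
  have h1 := hmin (T₀.erase t) (mem_filter.2 ⟨mem_powerset.2 ((erase_subset t T₀).trans h0.1), hd⟩)
  have h2 := card_erase_lt_of_mem ht
  omega

/-- **at most six** -/
theorem tight_six (A : Finset (Finset α)) (hne : A.Nonempty) (hU : ∀ X ∈ A, ∀ Y ∈ A, X ∪ Y ∈ A)
    (hle : ∀ x : α, 2 * (A.filter (fun S => x ∈ S)).card ≤ A.card) (T : Finset α)
    (hT : Dom A T) (h6 : T.card ≤ 6) : ∃ T₀ ⊆ T, A.card = 2 ^ T₀.card := by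
  obtain ⟨T₀, h1, h2, h3⟩ := exists_min hT
  refine ⟨T₀, h1, tight_min A hne hU hle T₀ h2 h3 fun S hS => ?_⟩
  have h4 := card_le_card h1
  omega

/-- **any number** -/
theorem tight_any (A : Finset (Finset α)) (hU : ∀ X ∈ A, ∀ Y ∈ A, X ∪ Y ∈ A)
    (hle : ∀ x : α, 2 * (A.filter (fun S => x ∈ S)).card ≤ A.card) (T : Finset α)
    (hT : Dom A T) : A.card ≤ 2 ^ (T.card * (T.card + 1)) := by
  by_contra hcon
  push Not at hcon
  have hne : A.Nonempty := by
    rw [← card_pos]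
    exact lt_of_le_of_lt (Nat.zero_le _) hcon
  have hA2 : A ≠ {∅} := by
    rintro rfl
    rw [card_singleton] at hcon
    exact absurd hcon (not_lt.2 Nat.one_le_two_pow)
  have h1 : (A.image (fun S => T ∩ S)).card ≤ 2 ^ T.card := by
    rw [← card_powerset]
    refine card_le_card fun P hP => ?_
    obtain ⟨S, _, rfl⟩ := mem_image.mp hP
    exact mem_powerset.mpr inter_subset_left
  have h2 : (A.image (fun S => T ∩ S)).card ^ (T.card + 1) < A.card := by
    refine lt_of_le_of_lt ?_ hcon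
    calc (A.image (fun S => T ∩ S)).card ^ (T.card + 1) ≤ (2 ^ T.card) ^ (T.card + 1) :=
          Nat.pow_le_pow_left h1 _
      _ = 2 ^ (T.card * (T.card + 1)) := (pow_mul 2 _ _).symm
  obtain ⟨t, _, _, h3⟩ := Pool.Agent.Y608.UC.TopsK.large hU hT hne hA2 h2.le
  have h4 := h3 h2
  have h5 := hle t
  omega

end Pool.Agent.Y205.TF
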