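import Mathlib
import Pool.Agent.Y205.TF.Red
import Pool.Agent.Y85.UT.FinalW

set_option autoImplicit false

/-!
# Union-closed families without an element in more than half of the members: heavy unions
-/

namespace Pool.Agent.Y205.TF

open Finset

variable {α : Type*} [DecidableEq α]

/-- **the reduction to separating families** -/
theorem reduction (A : Finset (Finset α)) (hU : ∀ X ∈ A, ∀ Y ∈ A, X ∪ Y ∈ A)
    (T : Finset α) (hT : Dom A T) (hmin : ∀ t ∈ T, ¬ Dom A (T.erase t)) :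
    ∃ (R : Finset α) (rep : α → α), (∀ S ∈ A, ∀ S' ∈ A, S ∩ R ⊆ S' ∩ R → S ⊆ S') ∧
      (A.image (fun S => S ∩ R)).card = A.card ∧
      (∀ X ∈ A.image (fun S => S ∩ R), ∀ Y ∈ A.image (fun S => S ∩ R),
        X ∪ Y ∈ A.image (fun S => S ∩ R)) ∧
      (A.image (fun S => S ∩ R)).sup id = R ∧
      (∀ r ∈ R, ((A.image (fun S => S ∩ R)).filter (fun S => r ∈ S)).card =
        (A.filter (fun S => r ∈ S)).card) ∧
      (∀ x ∈ R, ∀ y ∈ R, x ≠ y →
        ∃ S ∈ A.image (fun S => S ∩ R), (x ∈ S ∧ y ∉ S) ∨ (y ∈ S ∧ x ∉ S)) ∧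
      Set.InjOn rep (T : Set α) ∧
      (∀ u, u ∈ T.image rep ↔ u ∈ R ∧ ∀ y ∈ R,
        (∀ S ∈ A.image (fun S => S ∩ R), u ∈ S → y ∈ S) → y = u) ∧
      (∀ t ∈ T, ∀ S ∈ A, rep t ∈ S ∩ R ↔ t ∈ S) := by
  classical
  obtain ⟨R, rep, hRG, hrepR, hrepm, hsepR⟩ := exists_reps A
  have hGtop : ∀ S ∈ A, S ⊆ A.sup id := fun S hS => Finset.le_sup (f := id) hS
  have hmin' : ∀ t ∈ T, ∃ X ∈ A, ∃ x ∈ X, ∀ s ∈ T, (∀ Y ∈ A, x ∈ Y → s ∈ Y) → s = t := by
    intro t ht
    have h := hmin t ht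
    unfold Dom at h
    push Not at h
    obtain ⟨X, hX, x, hx, h⟩ := h
    refine ⟨X, hX, x, hx, fun s hs hd => ?_⟩
    by_contra hst
    obtain ⟨Y, hY, h1, h2⟩ := h s (mem_erase.2 ⟨hst, hs⟩)
    exact h2 (hd Y hY h1)
  have hsub : ∀ S ∈ A, ∀ S' ∈ A, S ∩ R ⊆ S' ∩ R → S ⊆ S' := by
    intro S hS S' hS' h x hx
    have hxG := hGtop S hS hx
    have h1 : rep x ∈ S ∩ R := mem_inter.mpr ⟨(hrepm x hxG S hS).mpr hx, hrepR x hxG⟩
    exact (hrepm x hxG S' hS').mp (mem_inter.mp (h h1)).1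
  have hinj : Set.InjOn (fun S => S ∩ R) (A : Set (Finset α)) := by
    intro S hS S' hS' h
    exact Subset.antisymm (hsub S hS S' hS' (le_of_eq h)) (hsub S' hS' S hS (le_of_eq h.symm))
  obtain ⟨A', hA'⟩ : ∃ A', A' = A.image (fun S => S ∩ R) := ⟨_, rfl⟩
  have hcard : A'.card = A.card := by rw [hA']; exact card_image_of_injOn hinj
  have hmem : ∀ S', S' ∈ A' ↔ ∃ S ∈ A, S ∩ R = S' := by
    intro S'
    rw [hA', mem_image]
  have hU' : ∀ X ∈ A', ∀ Y ∈ A', X ∪ Y ∈ A' := by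
    intro X hX Y hY
    rw [hmem] at hX hY ⊢
    obtain ⟨S, hS, rfl⟩ := hX
    obtain ⟨S', hS', rfl⟩ := hY
    exact ⟨S ∪ S', hU S hS S' hS', union_inter_distrib_right _ _ _⟩
  have hsup : A'.sup id = R := by
    apply Subset.antisymm
    · refine Finset.sup_le ?_
      intro S' hS'
      rw [hmem] at hS'
      obtain ⟨S, hS, rfl⟩ := hS'
      exact inter_subset_right
    · intro r hr
      have h1 := hRG hr
      rw [mem_sup] at h1
      obtain ⟨S, hS, hrS⟩ := h1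
      rw [mem_sup]
      exact ⟨S ∩ R, (hmem _).mpr ⟨S, hS, rfl⟩, mem_inter.mpr ⟨hrS, hr⟩⟩
  have hfreq' : ∀ r ∈ R, (A'.filter (fun S => r ∈ S)).card = (A.filter (fun S => r ∈ S)).card := by
    intro r hr
    have h1 : A'.filter (fun S => r ∈ S) = (A.filter (fun S => r ∈ S)).image (fun S => S ∩ R) := by
      ext S'
      rw [mem_filter, hmem, mem_image]
      constructor
      · rintro ⟨⟨S, hS, rfl⟩, hrS⟩
        exact ⟨S, mem_filter.mpr ⟨hS, (mem_inter.mp hrS).1⟩, rfl⟩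
      · rintro ⟨S, hS, rfl⟩
        rw [mem_filter] at hS
        exact ⟨⟨S, hS.1, rfl⟩, mem_inter.mpr ⟨hS.2, hr⟩⟩
    rw [h1]
    exact card_image_of_injOn (hinj.mono (by exact_mod_cast filter_subset _ _))
  have hsep : ∀ x ∈ R, ∀ y ∈ R, x ≠ y →
      ∃ S ∈ A', (x ∈ S ∧ y ∉ S) ∨ (y ∈ S ∧ x ∉ S) := by
    intro x hx y hy hne
    by_contra hcon
    push Not at hcon
    apply hne
    apply hsepR x hx y hy
    intro S hS
    have h2 := hcon (S ∩ R) ((hmem _).mpr ⟨S, hS, rfl⟩)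
    simp only [mem_inter, hx, hy, and_true] at h2
    tauto
  have hTG : ∀ t ∈ T, t ∈ A.sup id := by
    intro t ht
    obtain ⟨X, hX, x, hx, h⟩ := hmin' t ht
    obtain ⟨s, hs, hd⟩ := hT X hX x hx
    rw [← h s hs hd]
    exact hGtop X hX (hd X hX hx)
  have hinjT : Set.InjOn rep (T : Set α) := by
    intro t ht t' ht' h
    have ht0 : t ∈ T := ht
    have ht0' : t' ∈ T := ht'
    obtain ⟨X, hX, x, hx, h1⟩ := hmin' t ht0
    obtain ⟨s, hs, hd⟩ := hT X hX x hx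
    have hst := h1 s hs hd
    subst hst
    symm
    apply h1 t' ht0'
    intro Y hY hxY
    have h2 := hd Y hY hxY
    rw [← hrepm _ (hTG _ ht0) Y hY, h, hrepm _ (hTG _ ht0') Y hY] at h2
    exact h2
  refine ⟨R, rep, hsub, ?_⟩
  rw [← hA']
  refine ⟨hcard, hU', hsup, hfreq', hsep, hinjT, ?_, ?_⟩
  · intro u
    rw [mem_image]
    constructor
    · rintro ⟨t, ht, rfl⟩
      refine ⟨hrepR t (hTG t ht), fun y hy hdy => ?_⟩
      obtain ⟨X, hX, x, hx, h1⟩ := hmin' t ht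
      obtain ⟨s, hs, hd⟩ := hT X hX x hx
      have hst := h1 s hs hd
      subst hst
      have hys : ∀ S ∈ A, s ∈ S → y ∈ S := by
        intro S hS hsS
        have h2 := hdy (S ∩ R) ((hmem _).2 ⟨S, hS, rfl⟩)
          (mem_inter.2 ⟨(hrepm s (hTG s ht) S hS).2 hsS, hrepR s (hTG s ht)⟩)
        exact (mem_inter.1 h2).1
      have hyG := hRG hy
      rw [mem_sup] at hyG
      obtain ⟨Z, hZ, hyZ⟩ := hyG
      obtain ⟨s', hs', hd'⟩ := hT Z hZ y hyZ
      have h3 : s' = s := h1 s' hs' fun Y hY hxY => hd' Y hY (hys Y hY (hd Y hY hxY))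
      subst h3
      apply hsepR y hy _ (hrepR s' (hTG s' ht))
      intro S hS
      rw [hrepm s' (hTG s' ht) S hS]
      exact ⟨hd' S hS, hys S hS⟩
    · rintro ⟨hu, h⟩
      have huG := hRG hu
      rw [mem_sup] at huG
      obtain ⟨X, hX, hx⟩ := huG
      obtain ⟨t, ht, hd⟩ := hT X hX u hx
      refine ⟨t, ht, ?_⟩
      apply h (rep t) (hrepR t (hTG t ht))
      intro S' hS' huS'
      rw [hmem] at hS'
      obtain ⟨S, hS, rfl⟩ := hS'
      rw [mem_inter] at huS' ⊢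
      exact ⟨(hrepm t (hTG t ht) S hS).2 (hd S hS huS'.1), hrepR t (hTG t ht)⟩
  · intro t ht S hS
    rw [mem_inter, hrepm t (hTG t ht) S hS]
    exact ⟨fun h => h.1, fun h => ⟨h, hrepR t (hTG t ht)⟩⟩

/-- **heavy unions** -/
theorem tight_weights (A : Finset (Finset α)) (hne : A.Nonempty)
    (hU : ∀ X ∈ A, ∀ Y ∈ A, X ∪ Y ∈ A)
    (hle : ∀ x : α, 2 * (A.filter (fun S => x ∈ S)).card ≤ A.card) (T : Finset α)
    (hT : Dom A T) (hmin : ∀ t ∈ T, ¬ Dom A (T.erase t))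
    (w : α → ℝ) (hw : ∀ i ∈ T, 0 ≤ w i)
    (hc : (0 < ∑ i ∈ T, w i ∧ ∀ i ∈ T, 4 * w i ≤ ∑ i ∈ T, w i) ∨ ∀ i ∈ T, w i = 1)
    (hI : ∀ X ∈ A, ∀ Y ∈ A, ¬ X ⊆ Y → ¬ Y ⊆ X →
      ∑ i ∈ T, w i < 2 * ∑ i ∈ T \ X, w i →
      ∑ i ∈ T, w i < 2 * ∑ i ∈ T \ Y, w i →
      (T \ (X ∪ Y)).card ≤ 1 ∨ 4 * ∑ i ∈ T \ (X ∪ Y), w i ≤ ∑ i ∈ T, w i) :
    A.card = 2 ^ T.card := by
  classical
  obtain ⟨R, rep, hsub, hcard, hU', hsup, hfreq, hsep, hinjT, hund, hrep⟩ :=
    reduction A hU T hT hmin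
  obtain ⟨A', hA'⟩ : ∃ A', A' = A.image (fun S => S ∩ R) := ⟨_, rfl⟩
  rw [← hA'] at hcard hU' hsup hfreq hsep hund
  have htops : Pool.Agent.Y85.UT.tops A' = T.image rep := by
    ext u
    unfold Pool.Agent.Y85.UT.tops
    rw [mem_filter, hsup, hund u]
  obtain ⟨w', hw'⟩ : ∃ w' : α → ℝ, ∀ t ∈ T, w' (rep t) = w t := by
    rcases T.eq_empty_or_nonempty with h0 | ⟨t0, _⟩
    · exact ⟨w, fun t ht => by rw [h0] at ht; exact absurd ht (notMem_empty t)⟩
    · haveI : Nonempty α := ⟨t0⟩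
      refine ⟨fun r => w (Function.invFunOn rep (T : Set α) r), fun t ht => ?_⟩
      simp only
      congr 1
      exact hinjT.leftInvOn_invFunOn (by exact_mod_cast ht)
  have hsum0 : ∑ i ∈ T.image rep, w' i = ∑ i ∈ T, w i := by
    rw [sum_image hinjT]
    exact sum_congr rfl hw'
  have hdiff : ∀ S ∈ A, T.image rep \ (S ∩ R) = (T \ S).image rep := by
    intro S hS
    ext u
    rw [mem_sdiff, mem_image, mem_image]
    constructor
    · rintro ⟨⟨t, ht, rfl⟩, h⟩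
      exact ⟨t, mem_sdiff.2 ⟨ht, fun h1 => h ((hrep t ht S hS).2 h1)⟩, rfl⟩
    · rintro ⟨t, ht, rfl⟩
      rw [mem_sdiff] at ht
      exact ⟨⟨t, ht.1, rfl⟩, fun h1 => ht.2 ((hrep t ht.1 S hS).1 h1)⟩
  have hinjS : ∀ S : Finset α, Set.InjOn rep ((T \ S : Finset α) : Set α) := fun S =>
    hinjT.mono (by exact_mod_cast sdiff_subset)
  have hsum : ∀ S ∈ A, ∑ i ∈ T.image rep \ (S ∩ R), w' i = ∑ i ∈ T \ S, w i := by
    intro S hS
    rw [hdiff S hS, sum_image (hinjS S)]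
    exact sum_congr rfl fun t ht => hw' t (mem_sdiff.1 ht).1
  have hpow : A' = (A'.sup id).powerset := by
    by_contra hpow
    obtain ⟨x, hx, hlt⟩ := Pool.Agent.Y85.UT.strict_weights A' (by rw [hA']; exact hne.image _) hU'
      (by rw [hsup]; exact hsep) hpow w'
      (by
        rw [htops]
        intro i hi
        obtain ⟨t, ht, rfl⟩ := mem_image.1 hi
        rw [hw' t ht]
        exact hw t ht)
      (by
        rw [htops, hsum0]
        rcases hc with ⟨h1, h2⟩ | h1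
        · left
          refine ⟨h1, fun i hi => ?_⟩
          obtain ⟨t, ht, rfl⟩ := mem_image.1 hi
          rw [hw' t ht]
          exact h2 t ht
        · right
          intro i hi
          obtain ⟨t, ht, rfl⟩ := mem_image.1 hi
          rw [hw' t ht]
          exact h1 t ht)
      (by
        rw [htops, hsum0]
        intro X hX Y hY h1 h2
        rw [hA', mem_image] at hX hY
        obtain ⟨S, hS, rfl⟩ := hX
        obtain ⟨S', hS', rfl⟩ := hY
        have e1 : S ∩ R ∪ S' ∩ R = (S ∪ S') ∩ R := (union_inter_distrib_right _ _ _).symm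
        rw [hsum S hS, hsum S' hS', e1, hsum _ (hU S hS S' hS'), hdiff _ (hU S hS S' hS'),
          card_image_of_injOn (hinjS _)]
        exact hI S hS S' hS' (fun h => h1 (inter_subset_inter h (Subset.refl _)))
          (fun h => h2 (inter_subset_inter h (Subset.refl _))))
    have hxR : x ∈ R := by
      have := Pool.Agent.Y85.UT.tops_sub A' hx
      rwa [hsup] at this
    rw [hfreq x hxR, hcard] at hlt
    exact absurd (hle x) (by omega)
  have hundR : T.image rep = R := by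
    ext u
    rw [hund u]
    constructor
    · exact fun h => h.1
    · intro hu
      refine ⟨hu, fun y hy h => ?_⟩
      have h1 : ({u} : Finset α) ∈ A' := by
        rw [hpow, mem_powerset, hsup, singleton_subset_iff]; exact hu
      exact mem_singleton.1 (h {u} h1 (mem_singleton_self u))
  rw [← hcard, hpow, card_powerset, hsup, ← hundR, card_image_of_injOn hinjT]

end Pool.Agent.Y205.TF
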