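import Mathlib
import Pool.Agent.Y205.TF.Red2

set_option autoImplicit false

/-!
# Poonen's strict inequality without separation: a frequent element or a power set up to twins
-/

namespace Pool.Agent.Y205.TF

open Finset

variable {α : Type*} [DecidableEq α]

/-- if the separating family is a power set, the traces on `T` are in bijection with the members -/
theorem traces {A : Finset (Finset α)} {T R : Finset α} {rep : α → α}
    (hsub : ∀ S ∈ A, ∀ S' ∈ A, S ∩ R ⊆ S' ∩ R → S ⊆ S') (hR : R = T.image rep)
    (hrep : ∀ t ∈ T, ∀ S ∈ A, rep t ∈ S ∩ R ↔ t ∈ S) (hcard : A.card = 2 ^ T.card) :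
    Set.InjOn (fun X => X ∩ T) (A : Set (Finset α)) ∧ A.image (fun X => X ∩ T) = T.powerset := by
  classical
  have h1 : ∀ S ∈ A, ∀ S' ∈ A, S ∩ T ⊆ S' ∩ T → S ∩ R ⊆ S' ∩ R := by
    intro S hS S' hS' h r hr
    have hrR := (mem_inter.1 hr).2
    rw [hR] at hrR
    obtain ⟨t, ht, rfl⟩ := mem_image.1 hrR
    rw [hrep t ht S hS] at hr
    rw [hrep t ht S' hS']
    exact (mem_inter.1 (h (mem_inter.2 ⟨hr, ht⟩))).1
  have hinj : Set.InjOn (fun X => X ∩ T) (A : Set (Finset α)) := by
    intro S hS S' hS' h
    have h' : S ∩ T = S' ∩ T := h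
    exact Subset.antisymm (hsub S hS S' hS' (h1 S hS S' hS' h'.le))
      (hsub S' hS' S hS (h1 S' hS' S hS h'.ge))
  refine ⟨hinj, eq_of_subset_of_card_le ?_ ?_⟩
  · intro P hP
    obtain ⟨S, hS, rfl⟩ := mem_image.1 hP
    exact mem_powerset.2 inter_subset_right
  · rw [card_powerset, card_image_of_injOn hinj, hcard]

/-- the members are in bijection with the subsets of `T`: up to twins `A` is a power set -/
def UpTo (A : Finset (Finset α)) (T : Finset α) : Prop :=
  Set.InjOn (fun X => X ∩ T) (A : Set (Finset α)) ∧ A.image (fun X => X ∩ T) = T.powerset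

theorem poonen_min (A : Finset (Finset α)) (hne : A.Nonempty) (hU : ∀ X ∈ A, ∀ Y ∈ A, X ∪ Y ∈ A)
    (T : Finset α) (hT : Dom A T) (hmin : ∀ t ∈ T, ¬ Dom A (T.erase t))
    (hcl : ∀ S ∈ A, (S ∩ T).card ≤ 2 ∨ T.card ≤ 2 * (S ∩ T).card) :
    (∃ x ∈ A.sup id, A.card < 2 * (A.filter (fun S => x ∈ S)).card) ∨ UpTo A T := by
  classical
  by_cases hx : ∃ x : α, A.card < 2 * (A.filter (fun S => x ∈ S)).card
  · left
    obtain ⟨x, hx⟩ := hx
    refine ⟨x, ?_, hx⟩
    have h1 : (A.filter (fun S => x ∈ S)).Nonempty := by
      rw [← card_pos]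
      omega
    obtain ⟨S, hS⟩ := h1
    rw [mem_filter] at hS
    exact Finset.le_sup (f := id) hS.1 hS.2
  · right
    push Not at hx
    have hcard := tight_min A hne hU hx T hT hmin hcl
    obtain ⟨R, rep, hsub, hcardA, hU', hsup, hfreq, hsep, hinjT, hund, hrep⟩ :=
      reduction A hU T hT hmin
    obtain ⟨A', hA'⟩ : ∃ A', A' = A.image (fun S => S ∩ R) := ⟨_, rfl⟩
    rw [← hA'] at hcardA hU' hsup hfreq hsep hund
    have hund' : Pool.Agent.Y384.UC.Few.und A' = T.image rep := by
      ext u
      unfold Pool.Agent.Y384.UC.Few.und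
      rw [mem_filter, hsup, hund u]
    -- `|R| ≥ |T|`, `A'` is contained in the power set of `R`, and `T.image rep ⊆ R`
    have hsubR : T.image rep ⊆ R := fun u hu => ((hund u).1 hu).1
    have hRT : R.card = T.card := by
      by_contra hcon
      -- the separating family is a power set by the theorem
      have hpow : A' = (A'.sup id).powerset := by
        by_contra hpow
        obtain ⟨x, hx', hlt⟩ := Pool.Agent.Y384.UC.Few.main A' (by rw [hA']; exact hne.image _) hU'
          (by
            intro x hx y hy hxy
            rw [hsup] at hx hy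
            exact hsep x hx y hy hxy)
          hpow (by
            intro S' hS'
            rw [hA', mem_image] at hS'
            obtain ⟨S, hS, rfl⟩ := hS'
            have h1 : (S ∩ R) ∩ T.image rep = (S ∩ T).image rep := by
              ext u
              rw [mem_inter, mem_image, mem_image]
              constructor
              · rintro ⟨h1, t, ht, rfl⟩
                exact ⟨t, mem_inter.2 ⟨(hrep t ht S hS).1 h1, ht⟩, rfl⟩
              · rintro ⟨t, ht, rfl⟩
                rw [mem_inter] at ht
                exact ⟨(hrep t ht.2 S hS).2 ht.1, t, ht.2, rfl⟩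
            rw [hund', h1, card_image_of_injOn hinjT,
              card_image_of_injOn (hinjT.mono (by exact_mod_cast inter_subset_right))]
            exact hcl S hS)
        rw [hsup] at hx'
        unfold Pool.Agent.Y384.UC.Few.fr at hlt
        rw [hfreq x hx', hcardA] at hlt
        exact absurd (hx x) (by omega)
      have h2 : A'.card = 2 ^ R.card := by
        conv_lhs => rw [hpow, card_powerset, hsup]
      rw [hcardA, hcard] at h2
      exact hcon (Nat.pow_right_injective le_rfl h2.symm)
    have hR : R = T.image rep := by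
      symm
      apply eq_of_subset_of_card_le hsubR
      rw [card_image_of_injOn hinjT, hRT]
    exact traces hsub hR hrep hcard

end Pool.Agent.Y205.TF
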