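import Mathlib
import Pool.Agent.Y205.TF.Red3

set_option autoImplicit false

/-!
# Every element is a twin of an element of the dominating set
-/

namespace Pool.Agent.Y205.TF

open Finset

variable {α : Type*} [DecidableEq α]

theorem twins {A : Finset (Finset α)} {T : Finset α} (hU : ∀ X ∈ A, ∀ Y ∈ A, X ∪ Y ∈ A)
    (hT : Dom A T) (h : UpTo A T) :
    (∀ P ⊆ T, ∃! X, X ∈ A ∧ X ∩ T = P) ∧
      ∀ x ∈ A.sup id, ∃ t ∈ T, ∀ X ∈ A, x ∈ X ↔ t ∈ X := by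
  classical
  obtain ⟨h1, h2⟩ := h
  have h3 : ∀ P ⊆ T, ∃ X ∈ A, X ∩ T = P := by
    intro P hP
    have h4 : P ∈ A.image (fun X => X ∩ T) := by rw [h2]; exact mem_powerset.2 hP
    obtain ⟨X, hX, hXP⟩ := mem_image.1 h4
    exact ⟨X, hX, hXP⟩
  have hinj : ∀ X ∈ A, ∀ Y ∈ A, X ∩ T = Y ∩ T → X = Y := fun X hX Y hY h => h1 hX hY h
  refine ⟨fun P hP => ?_, fun x hx => ?_⟩
  · obtain ⟨X, hX, hXP⟩ := h3 P hP
    exact ⟨X, ⟨hX, hXP⟩, fun Y ⟨hY, hYP⟩ => hinj Y hY X hX (hYP.trans hXP.symm)⟩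
  · rw [mem_sup] at hx
    obtain ⟨X, hX, hxX⟩ := hx
    have hxX' : x ∈ X := hxX
    obtain ⟨t, ht, hd⟩ := hT X hX x hxX'
    refine ⟨t, ht, fun Y hY => ⟨hd Y hY, fun htY => ?_⟩⟩
    obtain ⟨Xt, hXt, hXtT⟩ := h3 {t} (singleton_subset_iff.2 ht)
    obtain ⟨Z, hZ, hZT⟩ := h3 ((X ∩ T).erase t) ((erase_subset _ _).trans inter_subset_right)
    have htX : t ∈ X := hd X hX hxX'
    have e1 : Z ∪ Xt = X := by
      apply hinj _ (hU Z hZ Xt hXt) X hX
      rw [union_inter_distrib_right, hZT, hXtT, union_comm, ← insert_eq,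
        insert_erase (mem_inter.2 ⟨htX, ht⟩)]
    have hxt : x ∈ Xt := by
      rw [← e1, mem_union] at hxX'
      rcases hxX' with h | h
      · exfalso
        have h4 : t ∈ Z ∩ T := mem_inter.2 ⟨hd Z hZ h, ht⟩
        rw [hZT] at h4
        exact notMem_erase t _ h4
      · exact h
    have e2 : Y ∪ Xt = Y := by
      apply hinj _ (hU Y hY Xt hXt) Y hY
      rw [union_inter_distrib_right, hXtT]
      exact union_eq_left.2 (singleton_subset_iff.2 (mem_inter.2 ⟨htY, ht⟩))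
    rw [← e2]
    exact mem_union_right _ hxt

end Pool.Agent.Y205.TF
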