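import Mathlib
import Pool.Agent.Y205.TF.Red3

set_option autoImplicit false

/-!
# Poonen's strict inequality without separation: families with heavy unions
-/

namespace Pool.Agent.Y205.TF

open Finset

variable {α : Type*} [DecidableEq α]

theorem poonen_weights (A : Finset (Finset α)) (hne : A.Nonempty)
    (hU : ∀ X ∈ A, ∀ Y ∈ A, X ∪ Y ∈ A) (T : Finset α)
    (hT : Dom A T) (hmin : ∀ t ∈ T, ¬ Dom A (T.erase t))
    (w : α → ℝ) (hw : ∀ i ∈ T, 0 ≤ w i)
    (hc : (0 < ∑ i ∈ T, w i ∧ ∀ i ∈ T, 4 * w i ≤ ∑ i ∈ T, w i) ∨ ∀ i ∈ T, w i = 1)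
    (hI : ∀ X ∈ A, ∀ Y ∈ A, ¬ X ⊆ Y → ¬ Y ⊆ X →
      ∑ i ∈ T, w i < 2 * ∑ i ∈ T \ X, w i →
      ∑ i ∈ T, w i < 2 * ∑ i ∈ T \ Y, w i →
      (T \ (X ∪ Y)).card ≤ 1 ∨ 4 * ∑ i ∈ T \ (X ∪ Y), w i ≤ ∑ i ∈ T, w i) :
    (∃ x ∈ A.sup id, A.card < 2 * (A.filter (fun S => x ∈ S)).card) ∨ UpTo A T := by
  classical
  by_cases hx : ∃ x : α, A.card < 2 * (A.filter (fun S => x ∈ S)).card
  · left
    obtain ⟨x, hx⟩ := hx
    refine ⟨x, ?_, hx⟩
    have h1 : (A.filter (fun S => x ∈ S)).Nonempty := by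
      rw [← card_pos]
      omega
    obtain ⟨S, hS⟩ := h1
    rw [mem_filter] at hS
    exact Finset.le_sup (f := id) hS.1 hS.2
  right
  push Not at hx
  have hcardT := tight_weights A hne hU hx T hT hmin w hw hc hI
  obtain ⟨R, rep, hsub, hcard, hU', hsup, hfreq, hsep, hinjT, hund, hrep⟩ :=
    reduction A hU T hT hmin
  obtain ⟨A', hA'⟩ : ∃ A', A' = A.image (fun S => S ∩ R) := ⟨_, rfl⟩
  rw [← hA'] at hcard hU' hsup hfreq hsep hund
  have htops : Pool.Agent.Y85.UT.tops A' = T.image rep := by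
    ext u
    unfold Pool.Agent.Y85.UT.tops
    rw [mem_filter, hsup, hund u]
  obtain ⟨w', hw'⟩ : ∃ w' : α → ℝ, ∀ t ∈ T, w' (rep t) = w t := by
    rcases T.eq_empty_or_nonempty with h0 | ⟨t0, _⟩
    · exact ⟨w, fun t ht => by rw [h0] at ht; exact absurd ht (notMem_empty t)⟩
    · haveI : Nonempty α := ⟨t0⟩
      refine ⟨fun r => w (Function.invFunOn rep (T : Set α) r), fun t ht => ?_⟩
      simp only
      congr 1
      exact hinjT.leftInvOn_invFunOn (by exact_mod_cast ht)
  have hsum0 : ∑ i ∈ T.image rep, w' i = ∑ i ∈ T, w i := by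
    rw [sum_image hinjT]
    exact sum_congr rfl hw'
  have hdiff : ∀ S ∈ A, T.image rep \ (S ∩ R) = (T \ S).image rep := by
    intro S hS
    ext u
    rw [mem_sdiff, mem_image, mem_image]
    constructor
    · rintro ⟨⟨t, ht, rfl⟩, h⟩
      exact ⟨t, mem_sdiff.2 ⟨ht, fun h1 => h ((hrep t ht S hS).2 h1)⟩, rfl⟩
    · rintro ⟨t, ht, rfl⟩
      rw [mem_sdiff] at ht
      exact ⟨⟨t, ht.1, rfl⟩, fun h1 => ht.2 ((hrep t ht.1 S hS).1 h1)⟩
  have hinjS : ∀ S : Finset α, Set.InjOn rep ((T \ S : Finset α) : Set α) := fun S =>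
    hinjT.mono (by exact_mod_cast sdiff_subset)
  have hsum : ∀ S ∈ A, ∑ i ∈ T.image rep \ (S ∩ R), w' i = ∑ i ∈ T \ S, w i := by
    intro S hS
    rw [hdiff S hS, sum_image (hinjS S)]
    exact sum_congr rfl fun t ht => hw' t (mem_sdiff.1 ht).1
  have hpow : A' = (A'.sup id).powerset := by
    by_contra hpow
    obtain ⟨x, hx', hlt⟩ := Pool.Agent.Y85.UT.strict_weights A' (by rw [hA']; exact hne.image _) hU'
      (by rw [hsup]; exact hsep) hpow w'
      (by
        rw [htops]
        intro i hi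
        obtain ⟨t, ht, rfl⟩ := mem_image.1 hi
        rw [hw' t ht]
        exact hw t ht)
      (by
        rw [htops, hsum0]
        rcases hc with ⟨h1, h2⟩ | h1
        · left
          refine ⟨h1, fun i hi => ?_⟩
          obtain ⟨t, ht, rfl⟩ := mem_image.1 hi
          rw [hw' t ht]
          exact h2 t ht
        · right
          intro i hi
          obtain ⟨t, ht, rfl⟩ := mem_image.1 hi
          rw [hw' t ht]
          exact h1 t ht)
      (by
        rw [htops, hsum0]
        intro X hX Y hY h1 h2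
        rw [hA', mem_image] at hX hY
        obtain ⟨S, hS, rfl⟩ := hX
        obtain ⟨S', hS', rfl⟩ := hY
        have e1 : S ∩ R ∪ S' ∩ R = (S ∪ S') ∩ R := (union_inter_distrib_right _ _ _).symm
        rw [hsum S hS, hsum S' hS', e1, hsum _ (hU S hS S' hS'), hdiff _ (hU S hS S' hS'),
          card_image_of_injOn (hinjS _)]
        exact hI S hS S' hS' (fun h => h1 (inter_subset_inter h (Subset.refl _)))
          (fun h => h2 (inter_subset_inter h (Subset.refl _))))
    have hxR : x ∈ R := by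
      have := Pool.Agent.Y85.UT.tops_sub A' hx'
      rwa [hsup] at this
    rw [hfreq x hxR, hcard] at hlt
    exact absurd (hx x) (by omega)
  have hR : R = T.image rep := by
    ext u
    rw [hund u]
    constructor
    · intro hu
      refine ⟨hu, fun y hy h => ?_⟩
      have h1 : ({u} : Finset α) ∈ A' := by
        rw [hpow, mem_powerset, hsup, singleton_subset_iff]; exact hu
      exact mem_singleton.1 (h {u} h1 (mem_singleton_self u))
    · exact fun h => h.1
  exact traces hsub hR hrep hcardT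

end Pool.Agent.Y205.TF
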